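import Pool.Agent.Y228.SW.EFa

set_option autoImplicit false
set_option linter.all false

/-! SW-EF: the explicit formula for the local sums. -/

namespace Pool.Agent.Y228.SW

open Filter Topology MeasureTheory Complex H370
open Pool.Agent.Y745.SW
open scoped ComplexConjugate

noncomputable section

/-- positive frequencies -/
def gp (B : ℝ → ℝ) (a u y ξ : ℝ) : ℝ :=
  if 0 ≤ u + ξ * a then B ξ * Real.exp (-(u + ξ * a - y) ^ 2 / 2) else 0

/-- negative frequencies -/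
def gm (B : ℝ → ℝ) (a u y ξ : ℝ) : ℝ :=
  if 0 ≤ u + ξ * a then 0 else B ξ * Real.exp (-(u + ξ * a + y) ^ 2 / 2)

theorem gp_int {B : ℝ → ℝ} (hB : Continuous B) (a u y : ℝ) :
    IntervalIntegrable (gp B a u y) volume (-1) 1 := by
  have h1 : IntervalIntegrable (fun ξ : ℝ => B ξ * Real.exp (-(u + ξ * a - y) ^ 2 / 2)) volume (-1) 1 := by
    apply Continuous.intervalIntegrable
    fun_prop
  have hs : MeasurableSet {ξ : ℝ | 0 ≤ u + ξ * a} := by
    apply IsClosed.measurableSet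
    exact isClosed_le continuous_const (by fun_prop)
  rw [intervalIntegrable_iff] at h1 ⊢
  have e : gp B a u y = Set.indicator {ξ : ℝ | 0 ≤ u + ξ * a}
      (fun ξ : ℝ => B ξ * Real.exp (-(u + ξ * a - y) ^ 2 / 2)) := by
    funext ξ
    unfold gp Set.indicator
    rfl
  rw [e]
  exact Integrable.indicator h1 hs

theorem gm_int {B : ℝ → ℝ} (hB : Continuous B) (a u y : ℝ) :
    IntervalIntegrable (gm B a u y) volume (-1) 1 := by
  have h1 : IntervalIntegrable (fun ξ : ℝ => B ξ * Real.exp (-(u + ξ * a + y) ^ 2 / 2)) volume (-1) 1 := by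
    apply Continuous.intervalIntegrable
    fun_prop
  have hs : MeasurableSet {ξ : ℝ | 0 ≤ u + ξ * a} := by
    apply IsClosed.measurableSet
    exact isClosed_le continuous_const (by fun_prop)
  rw [intervalIntegrable_iff] at h1 ⊢
  have e : gm B a u y = Set.indicator {ξ : ℝ | 0 ≤ u + ξ * a}ᶜ
      (fun ξ : ℝ => B ξ * Real.exp (-(u + ξ * a + y) ^ 2 / 2)) := by
    funext ξ
    unfold gm Set.indicator
    by_cases h : 0 ≤ u + ξ * a
    · rw [if_pos h, if_neg (by simpa using h)]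
    · rw [if_neg h, if_pos (by simpa using h)]
  rw [e]
  exact Integrable.indicator h1 hs.compl

theorem ii_ofReal {f : ℝ → ℝ} {a b : ℝ} (h : IntervalIntegrable f volume a b) :
    IntervalIntegrable (fun x => ((f x : ℝ) : ℂ)) volume a b :=
  ⟨h.1.ofReal, h.2.ofReal⟩

/-- the coefficients -/
def al (c : ℕ → ℂ) (t : ℝ) (n : ℕ) : ℂ :=
  c n * (Real.sqrt n : ℂ)⁻¹ * (n : ℂ) ^ (-(t : ℂ) * I) * ((1 / Real.sqrt (2 * Real.pi) : ℝ) : ℂ)

def be (c : ℕ → ℂ) (t : ℝ) (n : ℕ) : ℂ :=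
  conj (c n) * (Real.sqrt n : ℂ)⁻¹ * (n : ℂ) ^ ((t : ℂ) * I) * ((1 / Real.sqrt (2 * Real.pi) : ℝ) : ℂ)

/-- the integrand of the prime side -/
def QQf (c : ℕ → ℂ) (B : ℝ → ℝ) (a u t : ℝ) (X : ℕ) (ξ : ℝ) : ℂ :=
  ∑ n ∈ Finset.Icc 1 X, (al c t n * ((gp B a u (Real.log n) ξ : ℝ) : ℂ) +
    be c t n * ((gm B a u (Real.log n) ξ : ℝ) : ℂ))

theorem QQf_int (c : ℕ → ℂ) {B : ℝ → ℝ} (hB : Continuous B) (a u t : ℝ) (X : ℕ) :
    IntervalIntegrable (QQf c B a u t X) volume (-1) 1 ∧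
    ∫ ξ in (-1:ℝ)..1, QQf c B a u t X ξ = DPp c B a u X t + DPm c B a u X t := by
  have h1 : ∀ n ∈ Finset.Icc 1 X, IntervalIntegrable (fun ξ : ℝ =>
      (al c t n * ((gp B a u (Real.log n) ξ : ℝ) : ℂ) +
        be c t n * ((gm B a u (Real.log n) ξ : ℝ) : ℂ))) volume (-1) 1 := fun n _ =>
    ((ii_ofReal (gp_int hB a u (Real.log n))).const_mul _).add
      ((ii_ofReal (gm_int hB a u (Real.log n))).const_mul _)
  constructor
  · have h2 := IntervalIntegrable.sum (Finset.Icc 1 X) h1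
    refine h2.congr fun ξ _ => ?_
    simp [QQf]
  · unfold QQf
    rw [intervalIntegral.integral_finset_sum h1]
    unfold DPp DPm
    rw [← Finset.sum_add_distrib]
    refine Finset.sum_congr rfl fun n _ => ?_
    rw [intervalIntegral.integral_add ((ii_ofReal (gp_int hB a u (Real.log n))).const_mul _)
      ((ii_ofReal (gm_int hB a u (Real.log n))).const_mul _), intervalIntegral.integral_const_mul,
      intervalIntegral.integral_const_mul, intervalIntegral.integral_ofReal,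
      intervalIntegral.integral_ofReal]
    unfold dp Gp Gm al be
    have e1 : (∫ ξ in (-1:ℝ)..1, gp B a u (Real.log n) ξ) = ∫ ξ in (-1:ℝ)..1,
      (if 0 ≤ u + ξ * a then B ξ * Real.exp (-(u + ξ * a - Real.log n) ^ 2 / 2) else 0) := rfl
    have e2 : (∫ ξ in (-1:ℝ)..1, gm B a u (Real.log n) ξ) = ∫ ξ in (-1:ℝ)..1,
      (if 0 ≤ u + ξ * a then 0 else B ξ * Real.exp (-(u + ξ * a + Real.log n) ^ 2 / 2)) := rfl
    rw [e1, e2]
    push_cast
    ring

/-- the error at one frequency -/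
def Er (c : ℕ → ℂ) (L U1 U2 t : ℝ) (X : ℕ) (v : ℝ) : ℂ :=
  AA riemannZeta U1 U2 v t - (1 / Real.sqrt (2 * Real.pi) : ℝ) * (L * cexp (I * v * t) *
      Real.exp (-v ^ 2 / 2) - ∑ n ∈ Finset.Icc 1 X, tm c v t n)

theorem npow_neg {n : ℕ} (hn : 0 < n) (t : ℝ) :
    (n : ℂ) ^ (-(t : ℂ) * I) = cexp (-(Real.log n : ℝ) * (t * I)) := by
  rw [neg_mul, term_eq n hn]

theorem npow_pos {n : ℕ} (hn : 0 < n) (t : ℝ) :
    (n : ℂ) ^ ((t : ℂ) * I) = cexp ((Real.log n : ℝ) * (t * I)) := by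
  have h := term_eq n hn (-((t : ℂ) * I))
  rw [neg_neg] at h
  rw [h]
  congr 1
  ring

/-- the pointwise identity, positive frequencies -/
theorem point_pos {U1 U2 : ℝ} (c : ℕ → ℂ) (B : ℝ → ℝ) (a u t L : ℝ) (X : ℕ) (ξ : ℝ)
    (h : 0 ≤ u + ξ * a) :
    (B ξ : ℂ) * cexp (-(I * ξ * a * t)) * AA riemannZeta U1 U2 (u + ξ * a) t -
      (cexp (I * u * t) * ((L / Real.sqrt (2 * Real.pi) * (B ξ * Real.exp (-(u + ξ * a) ^ 2 / 2)) : ℝ) : ℂ) -
        cexp (I * u * t) * QQf c B a u t X ξ) =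
      (B ξ : ℂ) * cexp (-(I * ξ * a * t)) * Er c L U1 U2 t X (u + ξ * a) := by
  have e1 : cexp (-(I * ξ * a * t)) * cexp (I * ((u + ξ * a : ℝ) : ℂ) * t) = cexp (I * u * t) := by
    rw [← Complex.exp_add]
    congr 1
    push_cast
    ring
  have e2 : cexp (I * u * t) * QQf c B a u t X ξ = (B ξ : ℂ) * cexp (-(I * ξ * a * t)) *
      ((1 / Real.sqrt (2 * Real.pi) : ℝ) * ∑ n ∈ Finset.Icc 1 X, tm c (u + ξ * a) t n) := by
    unfold QQf
    rw [Finset.mul_sum, Finset.mul_sum, Finset.mul_sum]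
    refine Finset.sum_congr rfl fun n hn => ?_
    have hn0 : 0 < n := (Finset.mem_Icc.1 hn).1
    unfold al be gp gm tm
    rw [if_pos h, if_pos h, npow_neg hn0]
    have e3 : cexp (I * u * t) * cexp (-(Real.log n : ℝ) * (t * I)) =
        cexp (-(I * ξ * a * t)) * cexp (I * t * (((u + ξ * a : ℝ) : ℂ) - Real.log n)) := by
      rw [← Complex.exp_add, ← Complex.exp_add]
      congr 1
      push_cast
      ring
    rw [Complex.ofReal_zero, mul_zero, add_zero, Complex.ofReal_mul]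
    linear_combination (c n * (Real.sqrt n : ℂ)⁻¹ * ((1 / Real.sqrt (2 * Real.pi) : ℝ) : ℂ) * (B ξ : ℂ) *
      (Real.exp (-(u + ξ * a - Real.log n) ^ 2 / 2) : ℂ)) * e3
  rw [e2]
  unfold Er
  have e6 : ((L / Real.sqrt (2 * Real.pi) * (B ξ * Real.exp (-(u + ξ * a) ^ 2 / 2)) : ℝ) : ℂ) =
      ((1 / Real.sqrt (2 * Real.pi) : ℝ) : ℂ) * L * (B ξ : ℂ) * (Real.exp (-(u + ξ * a) ^ 2 / 2) : ℂ) := by
    rw [← Complex.ofReal_mul, ← Complex.ofReal_mul, ← Complex.ofReal_mul]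
    congr 1
    ring
  rw [e6]
  linear_combination (((1 / Real.sqrt (2 * Real.pi) : ℝ) : ℂ) * L * (B ξ : ℂ) *
    (Real.exp (-(u + ξ * a) ^ 2 / 2) : ℂ)) * e1

/-- the pointwise identity, negative frequencies -/
theorem point_neg {U1 U2 : ℝ} (hU : 1 ≤ U1) (c : ℕ → ℂ) (B : ℝ → ℝ) (a u t L : ℝ) (X : ℕ) (ξ : ℝ)
    (h : ¬ 0 ≤ u + ξ * a) :
    (B ξ : ℂ) * cexp (-(I * ξ * a * t)) * AA riemannZeta U1 U2 (u + ξ * a) t -
      (cexp (I * u * t) * ((L / Real.sqrt (2 * Real.pi) * (B ξ * Real.exp (-(u + ξ * a) ^ 2 / 2)) : ℝ) : ℂ) -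
        cexp (I * u * t) * QQf c B a u t X ξ) =
      (B ξ : ℂ) * cexp (-(I * ξ * a * t)) * conj (Er c L U1 U2 t X (-(u + ξ * a))) := by
  have hA : AA riemannZeta U1 U2 (u + ξ * a) t = conj (AA riemannZeta U1 U2 (-(u + ξ * a)) t) := by
    rw [← AA_conj hU, neg_neg]
  have e1 : cexp (-(I * ξ * a * t)) * conj (cexp (I * ((-(u + ξ * a) : ℝ) : ℂ) * t)) =
      cexp (I * u * t) := by
    rw [← Complex.exp_conj, ← Complex.exp_add]
    congr 1
    simp only [map_mul, conj_I, Complex.conj_ofReal]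
    push_cast
    ring
  have e2 : cexp (I * u * t) * QQf c B a u t X ξ = (B ξ : ℂ) * cexp (-(I * ξ * a * t)) *
      ((1 / Real.sqrt (2 * Real.pi) : ℝ) * conj (∑ n ∈ Finset.Icc 1 X, tm c (-(u + ξ * a)) t n)) := by
    unfold QQf
    rw [map_sum, Finset.mul_sum, Finset.mul_sum, Finset.mul_sum]
    refine Finset.sum_congr rfl fun n hn => ?_
    have hn0 : 0 < n := (Finset.mem_Icc.1 hn).1
    unfold al be gp gm tm
    rw [if_neg h, if_neg h, npow_pos hn0]
    have e3 : cexp (I * u * t) * cexp ((Real.log n : ℝ) * (t * I)) =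
        cexp (-(I * ξ * a * t)) * conj (cexp (I * t * (((-(u + ξ * a) : ℝ) : ℂ) - Real.log n))) := by
      rw [← Complex.exp_conj, ← Complex.exp_add, ← Complex.exp_add]
      congr 1
      simp only [map_mul, map_sub, conj_I, Complex.conj_ofReal]
      push_cast
      ring
    have e4 : -(-(u + ξ * a) - Real.log n) ^ 2 / 2 = -(u + ξ * a + Real.log n) ^ 2 / 2 := by ring
    rw [e4, map_mul, map_mul, map_mul, Complex.conj_ofReal, map_inv₀, Complex.conj_ofReal]
    rw [Complex.ofReal_zero, mul_zero, zero_add, Complex.ofReal_mul]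
    linear_combination (conj (c n) * (Real.sqrt n : ℂ)⁻¹ * ((1 / Real.sqrt (2 * Real.pi) : ℝ) : ℂ) * (B ξ : ℂ) *
      (Real.exp (-(u + ξ * a + Real.log n) ^ 2 / 2) : ℂ)) * e3
  rw [e2, hA]
  unfold Er
  rw [map_sub, map_mul, map_sub, map_mul, map_mul, Complex.conj_ofReal, Complex.conj_ofReal,
    Complex.conj_ofReal]
  have e5 : -(-(u + ξ * a)) ^ 2 / 2 = -(u + ξ * a) ^ 2 / 2 := by ring
  rw [e5]
  have e6 : ((L / Real.sqrt (2 * Real.pi) * (B ξ * Real.exp (-(u + ξ * a) ^ 2 / 2)) : ℝ) : ℂ) =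
      ((1 / Real.sqrt (2 * Real.pi) : ℝ) : ℂ) * L * (B ξ : ℂ) * (Real.exp (-(u + ξ * a) ^ 2 / 2) : ℂ) := by
    rw [← Complex.ofReal_mul, ← Complex.ofReal_mul, ← Complex.ofReal_mul]
    congr 1
    ring
  rw [e6]
  linear_combination (((1 / Real.sqrt (2 * Real.pi) : ℝ) : ℂ) * L * (B ξ : ℂ) *
    (Real.exp (-(u + ξ * a) ^ 2 / 2) : ℂ)) * e1

theorem sqrt_two_pi_inv : ‖((1 / Real.sqrt (2 * Real.pi) : ℝ) : ℂ)‖ ≤ 1 := by
  rw [Complex.norm_real, Real.norm_of_nonneg (by positivity)]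
  have h1 : 1 ≤ Real.sqrt (2 * Real.pi) := by
    rw [Real.one_le_sqrt]
    have := Real.pi_gt_three
    linarith
  rw [div_le_one (by positivity)]
  exact h1

theorem Er_bound {c : ℕ → ℂ} {C0 T U1 U2 ε t v : ℝ} (hE : EFD c C0 T U1 U2) (hε : 0 < ε)
    (hε2 : ε < 1 / 2) (hT : 0 < T) (hL : 32 / ε ^ 2 ≤ Real.log T) (ht1 : T + Real.log T ≤ t)
    (ht2 : t ≤ 2 * T - Real.log T) (hv0 : 0 ≤ v) (hv1 : v ≤ (1 - 3 * ε / 4) * Real.log T) :
    ‖Er c (Real.log T) U1 U2 t (XT ε T) v‖ ≤ |C0| * Real.exp (-v) + D0 * Real.exp (-Real.log T) := by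
  set L := Real.log T with hLd
  have hL0 : 0 < L := lt_of_lt_of_le (by positivity) hL
  have hεL : 32 ≤ ε ^ 2 * L := by
    rw [div_le_iff₀ (by positivity)] at hL
    linarith
  have hεL2 : 64 ≤ ε * L := by nlinarith
  have h1 := hE.ef v t hv0 (by nlinarith) ht1 ht2
  have h2 := PP_trunc c hE.hc v t L (XT ε T) (fun n hn => by
    have hn1 : T ^ (1 - ε / 4) < n := (Nat.floor_lt (by positivity)).1 hn
    have hn2 : (1 - ε / 4) * L ≤ Real.log n := by
      rw [hLd, ← Real.log_rpow hT]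
      exact Real.log_le_log (by positivity) hn1.le
    have hD : ε * L / 2 ≤ Real.log n - v := by nlinarith
    set D := Real.log n - v with hDd
    have e1 : (v - Real.log n) ^ 2 = D ^ 2 := by rw [hDd]; ring
    have e2 : Real.log n = D + v := by rw [hDd]; ring
    rw [e1, e2]
    have h3 : 32 ≤ D := by linarith
    have h4 : 8 * L ≤ D ^ 2 := by
      have h5 : (ε * L / 2) ^ 2 ≤ D ^ 2 := by
        apply pow_le_pow_left₀ (by positivity) hD
      have h6 : (ε * L / 2) ^ 2 = (ε ^ 2 * L) * L / 4 := by ring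
      nlinarith
    have h7 : v ≤ L := by nlinarith
    nlinarith)
  have e3 : Er c L U1 U2 t (XT ε T) v =
      (AA riemannZeta U1 U2 v t - (1 / Real.sqrt (2 * Real.pi) : ℝ) * (L * cexp (I * v * t) *
        Real.exp (-v ^ 2 / 2) - PP c v t)) -
      (1 / Real.sqrt (2 * Real.pi) : ℝ) * (PP c v t - ∑ n ∈ Finset.Icc 1 (XT ε T), tm c v t n) := by
    unfold Er
    ring
  rw [e3]
  refine (norm_sub_le _ _).trans (add_le_add (h1.trans ?_) ?_)
  · exact mul_le_mul_of_nonneg_right (le_abs_self _) (Real.exp_nonneg _)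
  · rw [norm_mul]
    calc _ ≤ 1 * (D0 * Real.exp (-L)) := mul_le_mul sqrt_two_pi_inv h2 (norm_nonneg _) zero_le_one
      _ = _ := one_mul _

theorem t_EF : P_EF := by
  intro ε τ hε hε2 hτ hτε c C0
  have hD0 := D0_nonneg
  refine ⟨2 * |C0| / τ + 2 * D0 + 1, by positivity, ?_⟩
  intro B K hB _ hBK
  have hK : 0 ≤ K := (abs_nonneg _).trans (hBK 0)
  filter_upwards [eventually_ge_atTop (Real.exp (32 / ε ^ 2)), eventually_ge_atTop 1] with T hT hT1
  intro U1 U2 hE t u ht1 ht2 hu0 hu1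
  have hT0 : 0 < T := by linarith
  have hL : 32 / ε ^ 2 ≤ Real.log T := by
    rw [Real.le_log_iff_exp_le hT0]
    exact hT
  set L := Real.log T with hLd
  have hL0 : 0 < L := lt_of_lt_of_le (by positivity) hL
  have hU1 : 1 ≤ U1 := by linarith [hE.h1]
  set a := τ * L with had
  have ha0 : 0 < a := by positivity
  have haL : a ≤ ε / 4 * L := by rw [had]; gcongr
  have hW : u + a ≤ (1 - 3 * ε / 4) * L := by nlinarith
  have hW2 : a ≤ (1 - 3 * ε / 4) * L := by nlinarith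
  set X := XT ε T with hXd
  -- the three integrals
  have hZ := St_eq (U2 := U2) hU1 hB a u t
  obtain ⟨hQ1, hQ2⟩ := QQf_int c hB a u t X
  have hZi : IntervalIntegrable (fun ξ : ℝ => (B ξ : ℂ) * cexp (-(I * ξ * a * t)) *
      AA riemannZeta U1 U2 (u + ξ * a) t) volume (-1) 1 := by
    apply Continuous.intervalIntegrable
    have h1 : Continuous (fun ξ : ℝ => AA riemannZeta U1 U2 (u + ξ * a) t) :=
      (AA_cont (U2 := U2) hU1 t).comp (by fun_prop)
    exact Continuous.mul (by fun_prop) h1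
  have hMi : IntervalIntegrable (fun ξ : ℝ => cexp (I * u * t) *
      ((L / Real.sqrt (2 * Real.pi) * (B ξ * Real.exp (-(u + ξ * a) ^ 2 / 2)) : ℝ) : ℂ)) volume (-1) 1 := by
    apply Continuous.intervalIntegrable
    fun_prop
  have hM : ∫ ξ in (-1:ℝ)..1, cexp (I * u * t) *
      ((L / Real.sqrt (2 * Real.pi) * (B ξ * Real.exp (-(u + ξ * a) ^ 2 / 2)) : ℝ) : ℂ) =
      cexp (I * u * t) * (Mu B a L u : ℝ) := by
    rw [intervalIntegral.integral_const_mul, intervalIntegral.integral_ofReal,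
      intervalIntegral.integral_const_mul]
    rfl
  have hQi : IntervalIntegrable (fun ξ : ℝ => cexp (I * u * t) * QQf c B a u t X ξ) volume (-1) 1 :=
    hQ1.const_mul _
  have key : St B a U1 U2 u t - cexp (I * u * t) * ((Mu B a L u : ℝ) - DPp c B a u X t -
      DPm c B a u X t) = ∫ ξ in (-1:ℝ)..1, ((B ξ : ℂ) * cexp (-(I * ξ * a * t)) *
      AA riemannZeta U1 U2 (u + ξ * a) t - (cexp (I * u * t) *
        ((L / Real.sqrt (2 * Real.pi) * (B ξ * Real.exp (-(u + ξ * a) ^ 2 / 2)) : ℝ) : ℂ) -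
        cexp (I * u * t) * QQf c B a u t X ξ)) := by
    rw [intervalIntegral.integral_sub hZi (hMi.sub hQi), intervalIntegral.integral_sub hMi hQi, ← hZ,
      hM, intervalIntegral.integral_const_mul, hQ2]
    ring
  rw [key]
  obtain ⟨hei, hev⟩ := int_exp_abs (u := u) ha0
  have hbd : ∀ ξ ∈ Set.Ioc (-1:ℝ) 1, ‖((B ξ : ℂ) * cexp (-(I * ξ * a * t)) *
      AA riemannZeta U1 U2 (u + ξ * a) t - (cexp (I * u * t) *
        ((L / Real.sqrt (2 * Real.pi) * (B ξ * Real.exp (-(u + ξ * a) ^ 2 / 2)) : ℝ) : ℂ) -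
        cexp (I * u * t) * QQf c B a u t X ξ))‖ ≤
      K * (|C0| * Real.exp (-|u + ξ * a|) + D0 * Real.exp (-L)) := by
    intro ξ hξ
    have hnB : ‖(B ξ : ℂ) * cexp (-(I * ξ * a * t))‖ ≤ K := by
      rw [norm_mul, Complex.norm_real, Complex.norm_exp]
      have e : (-(I * ξ * a * t) : ℂ).re = 0 := by
        rw [show (-(I * ξ * a * t) : ℂ) = ((-(ξ * a * t) : ℝ) : ℂ) * I by push_cast; ring,
          Complex.re_ofReal_mul, I_re, mul_zero]
      rw [e, Real.exp_zero, mul_one]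
      exact hBK ξ
    have hξa : |ξ * a| ≤ a := by
      rw [abs_mul, abs_of_pos ha0]
      have : |ξ| ≤ 1 := abs_le.2 ⟨hξ.1.le, hξ.2⟩
      nlinarith
    have hξa' := abs_le.1 hξa
    by_cases h : 0 ≤ u + ξ * a
    · rw [point_pos c B a u t L X ξ h, norm_mul, abs_of_nonneg h]
      exact mul_le_mul hnB (Er_bound hE hε hε2 hT0 hL ht1 ht2 h (by linarith)) (norm_nonneg _) hK
    · rw [point_neg hU1 c B a u t L X ξ h, norm_mul, abs_of_neg (not_le.1 h), RCLike.norm_conj]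
      exact mul_le_mul hnB (Er_bound hE hε hε2 hT0 hL ht1 ht2 (by linarith [not_le.1 h])
        (by linarith)) (norm_nonneg _) hK
  have hgi : IntervalIntegrable (fun ξ : ℝ => K * (|C0| * Real.exp (-|u + ξ * a|) +
      D0 * Real.exp (-L))) volume (-1) 1 :=
    ((hei.const_mul _).add intervalIntegrable_const).const_mul _
  refine (intervalIntegral.norm_integral_le_of_norm_le (by norm_num)
    (Eventually.of_forall hbd) hgi).trans ?_
  rw [intervalIntegral.integral_const_mul, intervalIntegral.integral_add (hei.const_mul _)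
    intervalIntegrable_const, intervalIntegral.integral_const_mul, intervalIntegral.integral_const]
  have hexp : Real.exp (-L) ≤ 1 / L := by
    rw [Real.exp_neg, one_div]
    apply inv_anti₀ hL0
    linarith [Real.add_one_le_exp L]
  calc K * ((|C0| * ∫ ξ in (-1:ℝ)..1, Real.exp (-|u + ξ * a|)) + (1 - -1 : ℝ) • (D0 * Real.exp (-L)))
      ≤ K * (|C0| * (2 / a) + 2 * (D0 * (1 / L))) := by
        refine mul_le_mul_of_nonneg_left (add_le_add (mul_le_mul_of_nonneg_left hev (abs_nonneg _))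
          ?_) hK
        rw [smul_eq_mul]
        have : D0 * Real.exp (-L) ≤ D0 * (1 / L) := mul_le_mul_of_nonneg_left hexp hD0
        linarith
    _ = (2 * |C0| / τ + 2 * D0) * K / L := by
        rw [had]
        field_simp
    _ ≤ (2 * |C0| / τ + 2 * D0 + 1) * K / L :=
        div_le_div_of_nonneg_right (mul_le_mul_of_nonneg_right (by linarith) hK) hL0.le

end

end Pool.Agent.Y228.SW
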