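import Pool.Agent.Y745.SW.DefsB
import Pool.Agent.H370R2.DirGood

set_option autoImplicit false
set_option linter.all false

/-! SW-EF, part A: the zero side and the prime side. -/

namespace Pool.Agent.Y228.SW

open Filter Topology MeasureTheory Complex H370
open Pool.Agent.Y745.SW
open scoped ComplexConjugate

noncomputable section

/-- reality of the zero sum -/
theorem AA_conj {U1 U2 : ℝ} (hU : 1 ≤ U1) (v t : ℝ) :
    AA riemannZeta U1 U2 (-v) t = conj (AA riemannZeta U1 U2 v t) := by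
  rw [AA_eq H370.good_zeta hU, AA_eq H370.good_zeta hU, map_sum]
  rw [← sum_refl H370.good_zeta hU
    (fun s => (mult riemannZeta s : ℂ) * hh (-v) t s)]
  refine Finset.sum_congr rfl fun s hs => ?_
  rw [mem_Zf H370.good_zeta hU] at hs
  have hm := mult_refl H370.good_zeta hs.1 hs.2.1 (by linarith [hs.2.2.1])
  rw [hm, map_mul, hh_conj, hh_eq, zz_refl, Complex.conj_natCast]
  congr 2
  congr 1
  push_cast
  ring

theorem hh_cont_u (t : ℝ) (s : ℂ) : Continuous (fun u : ℝ => hh u t s) := by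
  unfold hh
  fun_prop

theorem AA_cont {U1 U2 : ℝ} (hU : 1 ≤ U1) (t : ℝ) :
    Continuous (fun u : ℝ => AA riemannZeta U1 U2 u t) := by
  have : (fun u : ℝ => AA riemannZeta U1 U2 u t) = fun u : ℝ =>
      ∑ s ∈ Zf riemannZeta U1 U2, (mult riemannZeta s : ℂ) * hh u t s := by
    funext u
    rw [AA_eq H370.good_zeta hU]
  rw [this]
  exact continuous_finset_sum _ fun s _ => continuous_const.mul (hh_cont_u t s)

/-- the local sum as an integral of the Gaussian sums -/
theorem St_eq {U1 U2 : ℝ} (hU : 1 ≤ U1) {B : ℝ → ℝ} (hB : Continuous B) (a u t : ℝ) :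
    St B a U1 U2 u t = ∫ ξ in (-1:ℝ)..1, (B ξ : ℂ) * cexp (-(I * ξ * a * t)) *
      AA riemannZeta U1 U2 (u + ξ * a) t := by
  have h1 : ∀ ξ : ℝ, (B ξ : ℂ) * cexp (-(I * ξ * a * t)) * AA riemannZeta U1 U2 (u + ξ * a) t =
      ∑ s ∈ Zf riemannZeta U1 U2, (mult riemannZeta s : ℂ) *
        ((B ξ : ℂ) * cexp (I * ξ * (a * (zz s - t))) * (cexp (-(zz s - t) ^ 2 / 2) *
          cexp (I * u * zz s))) := by
    intro ξ
    rw [AA_eq H370.good_zeta hU, Finset.mul_sum]
    refine Finset.sum_congr rfl fun s _ => ?_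
    rw [hh_eq]
    have e : cexp (-(I * ξ * a * t)) * cexp (I * ((u + ξ * a : ℝ) : ℂ) * zz s) =
        cexp (I * ξ * (a * (zz s - t))) * cexp (I * u * zz s) := by
      rw [← Complex.exp_add, ← Complex.exp_add]
      congr 1
      push_cast
      ring
    calc (B ξ : ℂ) * cexp (-(I * ξ * a * t)) * ((mult riemannZeta s : ℂ) *
          (cexp (I * ((u + ξ * a : ℝ) : ℂ) * zz s) * cexp (-(zz s - t) ^ 2 / 2)))
        = (mult riemannZeta s : ℂ) * ((B ξ : ℂ) * (cexp (-(I * ξ * a * t)) *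
            cexp (I * ((u + ξ * a : ℝ) : ℂ) * zz s)) * cexp (-(zz s - t) ^ 2 / 2)) := by ring
      _ = _ := by rw [e]; ring
  have h2 : ∀ s ∈ Zf riemannZeta U1 U2, IntervalIntegrable (fun ξ : ℝ =>
      (mult riemannZeta s : ℂ) * ((B ξ : ℂ) * cexp (I * ξ * (a * (zz s - t))) *
        (cexp (-(zz s - t) ^ 2 / 2) * cexp (I * u * zz s)))) volume (-1) 1 := fun s _ => by
    apply Continuous.intervalIntegrable
    fun_prop
  simp_rw [h1]
  rw [intervalIntegral.integral_finset_sum h2]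
  unfold St
  refine Finset.sum_congr rfl fun s _ => ?_
  rw [intervalIntegral.integral_const_mul, intervalIntegral.integral_mul_const]
  unfold vt VF
  ring

/-- the terms of the prime side -/
def tm (c : ℕ → ℂ) (w t : ℝ) (n : ℕ) : ℂ :=
  c n * (Real.sqrt n : ℂ)⁻¹ * cexp (I * t * (w - Real.log n)) * Real.exp (-(w - Real.log n) ^ 2 / 2)

theorem norm_tm (c : ℕ → ℂ) (hc : ∀ n, ‖c n‖ ≤ ArithmeticFunction.vonMangoldt n) (w t : ℝ) (n : ℕ) :
    ‖tm c w t n‖ ≤ ArithmeticFunction.vonMangoldt n * ((Real.sqrt n)⁻¹ *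
      Real.exp (-(w - Real.log n) ^ 2 / 2)) := by
  unfold tm
  rw [norm_mul, norm_mul, norm_mul, norm_inv, Complex.norm_exp, Complex.norm_real, Complex.norm_real,
    Real.norm_of_nonneg (Real.sqrt_nonneg _), Real.norm_of_nonneg (Real.exp_nonneg _)]
  have e : (I * t * (w - Real.log n) : ℂ).re = 0 := by
    rw [show (I * t * (w - Real.log n) : ℂ) = ((t * (w - Real.log n) : ℝ) : ℂ) * I by push_cast; ring,
      Complex.re_ofReal_mul, I_re, mul_zero]
  rw [e, Real.exp_zero, mul_one, mul_assoc]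
  exact mul_le_mul_of_nonneg_right (hc n) (by positivity)

/-- the coefficients against `n ^ (-3/2)` -/
theorem wt_le {n : ℕ} (hn : 0 < n) {w E : ℝ}
    (h : Real.log n + E ≤ (w - Real.log n) ^ 2 / 2) :
    (Real.sqrt n)⁻¹ * Real.exp (-(w - Real.log n) ^ 2 / 2) ≤ (n : ℝ) ^ (-(3 / 2 : ℝ)) * Real.exp (-E) := by
  have hn0 : (0 : ℝ) < n := by exact_mod_cast hn
  have e1 : (n : ℝ) ^ (-(3 / 2 : ℝ)) = (Real.sqrt n)⁻¹ * Real.exp (-Real.log n) := by
    rw [Real.sqrt_eq_rpow, ← Real.rpow_neg hn0.le, Real.exp_neg, Real.exp_log hn0,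
      ← Real.rpow_neg_one, ← Real.rpow_add hn0]
    norm_num
  rw [e1, mul_assoc, ← Real.exp_add]
  apply mul_le_mul_of_nonneg_left _ (by positivity)
  apply Real.exp_le_exp.2
  linarith

theorem tm_zero (c : ℕ → ℂ) (hc : ∀ n, ‖c n‖ ≤ ArithmeticFunction.vonMangoldt n) (w t : ℝ) :
    tm c w t 0 = 0 := by
  have h0 : ‖c 0‖ ≤ 0 := by simpa using hc 0
  unfold tm
  rw [norm_le_zero_iff.1 h0]
  simp

theorem tm_summable (c : ℕ → ℂ) (hc : ∀ n, ‖c n‖ ≤ ArithmeticFunction.vonMangoldt n) (w t : ℝ) :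
    Summable (tm c w t) := by
  refine Summable.of_norm_bounded (lam_summable.mul_right (Real.exp (-(-(w + 1 / 2))))) fun n => ?_
  rcases Nat.eq_zero_or_pos n with h | h
  · rw [h, tm_zero c hc, norm_zero]
    simp
  · refine (norm_tm c hc w t n).trans ?_
    rw [mul_assoc]
    refine mul_le_mul_of_nonneg_left (wt_le h ?_) ArithmeticFunction.vonMangoldt_nonneg
    nlinarith [sq_nonneg (Real.log n - w - 1)]

/-- truncation of the prime side -/
theorem PP_trunc (c : ℕ → ℂ) (hc : ∀ n, ‖c n‖ ≤ ArithmeticFunction.vonMangoldt n) (w t E : ℝ) (X : ℕ)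
    (hX : ∀ n : ℕ, X < n → Real.log n + E ≤ (w - Real.log n) ^ 2 / 2) :
    ‖PP c w t - ∑ n ∈ Finset.Icc 1 X, tm c w t n‖ ≤ D0 * Real.exp (-E) := by
  classical
  have hs := tm_summable c hc w t
  have h1 : HasSum (fun n => if n ∈ Finset.Icc 1 X then tm c w t n else 0)
      (∑ n ∈ Finset.Icc 1 X, tm c w t n) := by
    have h2 := hasSum_sum_of_ne_finset_zero (f := fun n => if n ∈ Finset.Icc 1 X then tm c w t n else 0)
      (s := Finset.Icc 1 X) (L := SummationFilter.unconditional ℕ) (fun n hn => if_neg hn)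
    have e : ∑ n ∈ Finset.Icc 1 X, (if n ∈ Finset.Icc 1 X then tm c w t n else 0) =
        ∑ n ∈ Finset.Icc 1 X, tm c w t n := Finset.sum_congr rfl fun n hn => if_pos hn
    rw [e] at h2
    exact h2
  have h3 := hs.hasSum.sub h1
  have h4 : PP c w t = ∑' n, tm c w t n := rfl
  rw [h4, ← h3.tsum_eq]
  refine (tsum_of_norm_bounded (lam_summable.mul_right (Real.exp (-E))).hasSum fun n => ?_).trans
    (le_of_eq ?_)
  · by_cases hn : n ∈ Finset.Icc 1 X
    · rw [if_pos hn, sub_self, norm_zero]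
      exact mul_nonneg (mul_nonneg ArithmeticFunction.vonMangoldt_nonneg (by positivity))
        (Real.exp_nonneg _)
    · rw [if_neg hn, sub_zero]
      rcases Nat.eq_zero_or_pos n with h | h
      · rw [h, tm_zero c hc, norm_zero]
        simp
      · refine (norm_tm c hc w t n).trans ?_
        rw [mul_assoc]
        refine mul_le_mul_of_nonneg_left (wt_le h (hX n ?_)) ArithmeticFunction.vonMangoldt_nonneg
        rw [Finset.mem_Icc, not_and, not_le] at hn
        exact hn h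
  · rw [tsum_mul_right]
    rfl

theorem int_exp_abs {a u : ℝ} (ha : 0 < a) :
    IntervalIntegrable (fun ξ : ℝ => Real.exp (-|u + ξ * a|)) volume (-1) 1 ∧
    ∫ ξ in (-1:ℝ)..1, Real.exp (-|u + ξ * a|) ≤ 2 / a := by
  constructor
  · apply Continuous.intervalIntegrable
    fun_prop
  have h1 : ∫ ξ in (-1:ℝ)..1, Real.exp (-|u + ξ * a|) =
      a⁻¹ * ∫ v in (u - a)..(u + a), Real.exp (-|v|) := by
    have h := intervalIntegral.integral_comp_add_mul (a := (-1:ℝ)) (b := 1)
      (fun v : ℝ => Real.exp (-|v|)) ha.ne' u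
    have e : (fun ξ : ℝ => Real.exp (-|u + ξ * a|)) = fun ξ : ℝ => Real.exp (-|u + a * ξ|) := by
      funext ξ; rw [mul_comm]
    rw [e, h, smul_eq_mul]
    congr 2 <;> ring
  rw [h1]
  have h2 : ∫ v : ℝ, Real.exp (-|v|) = 2 := by
    rw [integral_comp_abs (f := fun x => Real.exp (-x)), integral_exp_neg_Ioi_zero]
    norm_num
  have hint : Integrable (fun v : ℝ => Real.exp (-|v|)) := by
    by_contra hcon
    rw [integral_undef hcon] at h2
    norm_num at h2
  have h3 : ∫ v in (u - a)..(u + a), Real.exp (-|v|) ≤ 2 := by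
    rw [intervalIntegral.integral_of_le (by linarith), ← h2]
    exact setIntegral_le_integral hint (Eventually.of_forall fun v => Real.exp_nonneg _)
  calc a⁻¹ * ∫ v in (u - a)..(u + a), Real.exp (-|v|) ≤ a⁻¹ * 2 := by gcongr
    _ = 2 / a := by ring

end

end Pool.Agent.Y228.SW
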